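import Pool.Agent.X277.PF.Free

/-!
# Existence of free subgroups
-/

set_option autoImplicit false

open Set Function

noncomputable section

namespace Pool.Agent.X277.PF

theorem isPGroup_pi {p : ℕ} [Fact p.Prime] {ι : Type} [Finite ι] (Q : ι → Type)
    [∀ i, Group (Q i)] [∀ i, Finite (Q i)] (h : ∀ i, IsPGroup p (Q i)) :
    IsPGroup p (∀ i, Q i) := by
  classical
  intro f
  choose N hN using fun i => h i (f i)
  have := Fintype.ofFinite ι
  refine ⟨∑ i, N i, ?_⟩
  funext i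
  show f i ^ p ^ (∑ i, N i) = 1
  rw [← Finset.add_sum_erase _ _ (Finset.mem_univ i), pow_add, pow_mul, hN i, one_pow]

theorem isPGroup_prod {p : ℕ} {A B : Type} [Group A] [Group B] (hA : IsPGroup p A)
    (hB : IsPGroup p B) : IsPGroup p (A × B) := by
  rintro ⟨a, b⟩
  obtain ⟨m, hm⟩ := hA a
  obtain ⟨k, hk⟩ := hB b
  refine ⟨m + k, Prod.ext ?_ ?_⟩
  · show a ^ p ^ (m + k) = 1
    rw [pow_add, pow_mul, hm, one_pow]
  · show b ^ p ^ (m + k) = 1
    rw [pow_add, mul_comm, pow_mul, hk, one_pow]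

/-- the elementary abelian group of rank `n` -/
abbrev El (p n : ℕ) : Type := Fin n → Multiplicative (ZMod p)

/-- the standard homomorphism to the elementary abelian group -/
def stdEl (p n : ℕ) : FreeGroup (Fin n) →* El p n :=
  FreeGroup.lift fun i => Pi.mulSingle i (Multiplicative.ofAdd 1)

theorem El_pgroup (p n : ℕ) [Fact p.Prime] : IsPGroup p (El p n) := by
  have : NeZero p := ⟨(Fact.out : p.Prime).ne_zero⟩
  have : Finite (Multiplicative (ZMod p)) := Finite.of_equiv _ Multiplicative.ofAdd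
  apply isPGroup_pi
  intro _
  apply IsPGroup.of_card (n := 1)
  rw [Nat.card_congr Multiplicative.toAdd, Nat.card_zmod, pow_one]

theorem hom_of_stdEl {p n : ℕ} (η : FreeGroup (Fin n) →* Multiplicative (ZMod p))
    {y z : FreeGroup (Fin n)} (h : stdEl p n y = stdEl p n z) : η y = η z := by
  let c : El p n →* Multiplicative (ZMod p) :=
    { toFun := fun e => Multiplicative.ofAdd
        (∑ i, Multiplicative.toAdd (e i) * Multiplicative.toAdd (η (FreeGroup.of i)))
      map_one' := by simp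
      map_mul' := by
        intro e f
        rw [← ofAdd_add, ← Finset.sum_add_distrib]
        congr 1
        refine Finset.sum_congr rfl fun i _ => ?_
        rw [Pi.mul_apply, toAdd_mul, add_mul] }
  have h1 : η = c.comp (stdEl p n) := by
    ext i
    rw [MonoidHom.comp_apply, stdEl, FreeGroup.lift_apply_of]
    have h2 : ∑ j, Multiplicative.toAdd ((Pi.mulSingle i (Multiplicative.ofAdd 1) : El p n) j) *
        Multiplicative.toAdd (η (FreeGroup.of j)) = Multiplicative.toAdd (η (FreeGroup.of i)) := by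
      rw [Finset.sum_eq_single i]
      · simp
      · intro j _ hj
        rw [Pi.mulSingle_eq_of_ne hj]
        simp
      · intro hi; exact absurd (Finset.mem_univ _) hi
    exact (congrArg Multiplicative.ofAdd h2).symm
  rw [h1, MonoidHom.comp_apply, MonoidHom.comp_apply, h]

theorem finite_hom {Λ : Type} [Group Λ] (hfg : Group.FG Λ) (Q : Type) [Group Q] [Finite Q] :
    Finite (Λ →* Q) := by
  obtain ⟨S, hS⟩ := hfg.out
  have : Injective (fun f : Λ →* Q => fun s : S => f s) := by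
    intro f g hfg
    apply MonoidHom.eq_of_eqOn_dense hS
    intro s hs
    exact congrFun hfg ⟨s, hs⟩
  exact Finite.of_injective _ this

variable {p n : ℕ} {Λ : Type} [Group Λ]

/-- compatibility -/
def Good (θ : Λ →* El p n) (Q : Type) [Group Q] (φ : FreeGroup (Fin n) →* Q) : Prop :=
  ∃ π : Λ →* Q, ∀ g, ∃ y, φ y = π g ∧ stdEl p n y = θ g

theorem exists_good [Fact p.Prime] (h : HasPQuotientsOf p Λ (FreeGroup (Fin n))) (Q : Type)
    [Group Q] [Finite Q] (hQ : IsPGroup p Q) (φ : FreeGroup (Fin n) →* Q) :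
    ∃ θ : Λ →* El p n, (∀ i, ∃ g, θ g = stdEl p n (FreeGroup.of i)) ∧ Good θ Q φ := by
  have : NeZero p := ⟨(Fact.out : p.Prime).ne_zero⟩
  have : Finite (Multiplicative (ZMod p)) := Finite.of_equiv _ Multiplicative.ofAdd
  let Φ : FreeGroup (Fin n) →* Q × El p n := φ.prod (stdEl p n)
  obtain ⟨π, hπ⟩ := h Φ.range ((isPGroup_prod hQ (El_pgroup p n)).to_subgroup _)
    ⟨Φ.rangeRestrict, Φ.rangeRestrict_surjective⟩
  refine ⟨(MonoidHom.snd _ _).comp (Φ.range.subtype.comp π), fun i => ?_,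
    (MonoidHom.fst _ _).comp (Φ.range.subtype.comp π), fun g => ?_⟩
  · obtain ⟨g, hg⟩ := hπ (Φ.rangeRestrict (FreeGroup.of i))
    refine ⟨g, ?_⟩
    show ((π g : Φ.range) : Q × El p n).2 = _
    rw [hg]
    rfl
  · obtain ⟨y, hy⟩ := (π g).2
    refine ⟨y, ?_, ?_⟩
    · show φ y = ((π g : Φ.range) : Q × El p n).1
      rw [← hy]
      rfl
    · show stdEl p n y = ((π g : Φ.range) : Q × El p n).2
      rw [← hy]
      rfl

theorem exists_good_all [Fact p.Prime] (hfg : Group.FG Λ)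
    (h : HasPQuotientsOf p Λ (FreeGroup (Fin n))) :
    ∃ θ : Λ →* El p n, (∀ i, ∃ g, θ g = stdEl p n (FreeGroup.of i)) ∧
      ∀ (Q : Type) [Group Q] [Finite Q], IsPGroup p Q → ∀ φ : FreeGroup (Fin n) →* Q,
        Good θ Q φ := by
  have : NeZero p := ⟨(Fact.out : p.Prime).ne_zero⟩
  have : Finite (Multiplicative (ZMod p)) := Finite.of_equiv _ Multiplicative.ofAdd
  have hfin : Finite (Λ →* El p n) := finite_hom hfg _
  by_contra hcon
  push Not at hcon
  have hcon' : ∀ θ : Λ →* El p n, ∃ (Q : Type) (_ : Group Q) (_ : Finite Q) (_ : IsPGroup p Q)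
      (φ : FreeGroup (Fin n) →* Q),
      (∀ i, ∃ g, θ g = stdEl p n (FreeGroup.of i)) → ¬ Good θ Q φ := by
    intro θ
    by_cases hT : ∀ i, ∃ g, θ g = stdEl p n (FreeGroup.of i)
    · obtain ⟨Q, i1, i2, h1, φ, h2⟩ := hcon θ hT
      exact ⟨Q, i1, i2, h1, φ, fun _ => h2⟩
    · exact ⟨Unit, inferInstance, inferInstance, fun _ => ⟨0, rfl⟩, 1, fun h => absurd h hT⟩
  choose Q i1 i2 hQ φ hbad using hcon'
  obtain ⟨θ, hT, π, hπ⟩ := exists_good (p := p) h (∀ θ, Q θ) (isPGroup_pi Q hQ) (MonoidHom.pi φ)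
  refine hbad θ hT ⟨(Pi.evalMonoidHom Q θ).comp π, fun g => ?_⟩
  obtain ⟨y, h1, h2⟩ := hπ g
  refine ⟨y, ?_, h2⟩
  show φ θ y = π g θ
  rw [← h1]
  rfl

/-- **Existence of free subgroups.** -/
theorem exists_free [hp : Fact p.Prime] (hfg : Group.FG Λ)
    (h : HasPQuotientsOf p Λ (FreeGroup (Fin n))) :
    ∃ a : Fin n → Λ, Injective (FreeGroup.lift a) := by
  obtain ⟨θ, hT, hall⟩ := exists_good_all hfg h
  choose a ha using hT
  refine ⟨a, ?_⟩
  rw [injective_iff_map_eq_one]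
  intro x hx
  by_contra hne
  obtain ⟨P, _, _, hP, b, hb⟩ := ResP.detect hp.out x hne
  obtain ⟨π, hπ⟩ := hall (RF P n) (RF_pgroup P hP n) (allEv P n).rangeRestrict
  have hgen : Subgroup.closure (range fun i => π (a i)) = ⊤ := by
    apply closure_eq_top_of_hom (RF_pgroup P hP n)
    intro χ hχ
    have h1 : χ.comp (allEv P n).rangeRestrict = 1 := by
      ext i
      obtain ⟨y, h2, h3⟩ := hπ (a i)
      rw [ha i] at h3
      rw [← hom_of_stdEl (χ.comp (allEv P n).rangeRestrict) h3, MonoidHom.comp_apply, h2,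
        hχ _ ⟨i, rfl⟩]
      rfl
    ext y
    obtain ⟨z, rfl⟩ := (allEv P n).rangeRestrict_surjective y
    exact congrArg _ (DFunLike.congr_fun h1 z)
  apply hopf hb hgen
  have h1 : FreeGroup.lift (fun i => π (a i)) = π.comp (FreeGroup.lift a) := by
    ext i
    simp
  rw [h1, MonoidHom.comp_apply, hx, map_one]

/-! ### Subgroups of finite index -/

theorem finite_index_eq (hfg : Group.FG Λ) {d : ℕ} (hd : 0 < d) :
    Finite {H : Subgroup Λ // H.index = d} := by
  have hfin : Finite (Λ →* Equiv.Perm (Fin d)) := finite_hom hfg _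
  have key : ∀ H : {H : Subgroup Λ // H.index = d}, ∃ ρ : Λ →* Equiv.Perm (Fin d),
      ∀ g, g ∈ H.1 ↔ ρ g ⟨0, hd⟩ = ⟨0, hd⟩ := by
    rintro ⟨H, hH⟩
    have h1 : Nat.card (Λ ⧸ H) = d := hH
    have h2 : Finite (Λ ⧸ H) := Nat.finite_of_card_ne_zero (by rw [h1]; exact hd.ne')
    have e0 : (Λ ⧸ H) ≃ Fin d := Finite.equivFinOfCardEq h1
    let e : (Λ ⧸ H) ≃ Fin d := e0.trans (Equiv.swap (e0 (1 : Λ)) ⟨0, hd⟩)
    have he : e ((1 : Λ) : Λ ⧸ H) = ⟨0, hd⟩ := by simp [e]
    let ρ : Λ →* Equiv.Perm (Fin d) :=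
      (e.permCongrHom : Equiv.Perm (Λ ⧸ H) ≃* Equiv.Perm (Fin d)).toMonoidHom.comp
        (MulAction.toPermHom Λ (Λ ⧸ H))
    refine ⟨ρ, fun g => ?_⟩
    have h3 : ρ g ⟨0, hd⟩ = e ((g : Λ) : Λ ⧸ H) := by
      show e (g • e.symm ⟨0, hd⟩) = _
      rw [← he, Equiv.symm_apply_apply]
      show e (((g • (1 : Λ) : Λ)) : Λ ⧸ H) = _
      rw [smul_eq_mul, mul_one]
    rw [h3, ← he, e.injective.eq_iff]
    constructor
    · intro hg
      exact ((QuotientGroup.eq (s := H)).2 (by simpa using hg)).symm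
    · intro hg
      have := (QuotientGroup.eq (s := H)).1 hg.symm
      simpa using this
  choose ρ hρ using key
  have : Injective ρ := by
    intro H K h
    apply Subtype.ext
    ext g
    rw [hρ H, hρ K, h]
  exact Finite.of_injective ρ this

/-- a subgroup of the same index with the given quotient -/
theorem exists_subgroup_quot {Γ : Type} [Group Γ] (h : HasQuotientsOf Λ Γ) (Δ : Subgroup Γ)
    [hΔ : Δ.FiniteIndex] {F : Type} [Group F] (τ : Δ →* F) (hτ : Surjective τ) (Q : Type) [Group Q]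
    [Finite Q] (φ : F →* Q) (hφ : Surjective φ) :
    ∃ H : Subgroup Λ, H.index = Δ.index ∧ ∃ ψ : H →* Q, Surjective ψ := by
  let D : Subgroup Γ := (φ.comp τ).ker.map Δ.subtype
  have hDΔ : D ≤ Δ := by
    rintro _ ⟨y, _, rfl⟩
    exact y.2
  have hD : D.FiniteIndex := by
    have h1 : (φ.comp τ).ker.FiniteIndex := by
      have : Finite (φ.comp τ).range := inferInstance
      exact Subgroup.finiteIndex_ker _
    refine ⟨?_⟩
    have h2 : D.relIndex Δ * Δ.index = D.index := Subgroup.relIndex_mul_index hDΔ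
    rw [← h2]
    refine mul_ne_zero ?_ hΔ.index_ne_zero
    have h3 : D.relIndex Δ = (φ.comp τ).ker.index := by
      show (D.subgroupOf Δ).index = _
      congr 1
      ext y
      rw [Subgroup.mem_subgroupOf]
      constructor
      · rintro ⟨z, hz, hzy⟩
        have : z = y := Subtype.ext hzy
        rwa [← this]
      · intro hy
        exact ⟨y, hy, rfl⟩
    rw [h3]
    exact h1.index_ne_zero
  let N : Subgroup Γ := D.normalCore
  have hN : N.FiniteIndex := inferInstance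
  have hNfin : Finite (Γ ⧸ N) := Subgroup.finite_quotient_of_finiteIndex
  obtain ⟨π, hπ⟩ := h (Γ ⧸ N) ⟨QuotientGroup.mk' N, QuotientGroup.mk'_surjective N⟩
  have hND : N ≤ D := Subgroup.normalCore_le D
  let f : Δ →* Γ ⧸ N := (QuotientGroup.mk' N).comp Δ.subtype
  have hfr : f.range = Δ.map (QuotientGroup.mk' N) := by
    rw [MonoidHom.range_comp, Subgroup.range_subtype]
  have hker : f.ker ≤ (φ.comp τ).ker := by
    intro y hy
    have h1 : (y : Γ) ∈ N := (QuotientGroup.eq_one_iff (y : Γ)).1 hy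
    obtain ⟨z, hz, hzy⟩ := hND h1
    have : z = y := Subtype.ext hzy
    rwa [← this]
  let q1 : Δ ⧸ f.ker →* Q := QuotientGroup.lift f.ker (φ.comp τ) hker
  have hq1 : Surjective q1 := by
    intro z
    obtain ⟨w, rfl⟩ := hφ z
    obtain ⟨y, rfl⟩ := hτ w
    exact ⟨(y : Δ ⧸ f.ker), rfl⟩
  let e : Δ ⧸ f.ker ≃* f.range := QuotientGroup.quotientKerEquivRange f
  refine ⟨f.range.comap π, ?_, (q1.comp e.symm.toMonoidHom).comp (π.subgroupComap f.range), ?_⟩
  · rw [Subgroup.index_comap_of_surjective _ hπ, hfr]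
    apply Subgroup.index_map_eq _ (QuotientGroup.mk'_surjective N)
    rw [QuotientGroup.ker_mk']
    exact hND.trans hDΔ
  · intro z
    obtain ⟨y, rfl⟩ := hq1 z
    obtain ⟨w, hw⟩ := π.subgroupComap_surjective_of_surjective f.range hπ (e y)
    refine ⟨w, ?_⟩
    show q1 (e.symm (π.subgroupComap f.range w)) = q1 y
    rw [hw, MulEquiv.symm_apply_apply]

/-- **Large groups.** -/
theorem exists_subgroup_quotients {Γ : Type} [Group Γ] (hfg : Group.FG Λ) (h : HasQuotientsOf Λ Γ)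
    (Δ : Subgroup Γ) [hΔ : Δ.FiniteIndex] {F : Type} [Group F] (τ : Δ →* F) (hτ : Surjective τ) :
    ∃ H : Subgroup Λ, H.index = Δ.index ∧ HasQuotientsOf H F := by
  have hpos : 0 < Δ.index := Nat.pos_of_ne_zero hΔ.index_ne_zero
  have hfin := finite_index_eq hfg hpos
  by_contra hcon
  push Not at hcon
  have hcon' : ∀ H : {H : Subgroup Λ // H.index = Δ.index}, ∃ (Q : Type) (_ : Group Q)
      (_ : Finite Q) (φ : F →* Q) (_ : Surjective φ), ¬ ∃ ψ : H.1 →* Q, Surjective ψ := by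
    intro H
    have h1 := hcon H.1 H.2
    unfold HasQuotientsOf at h1
    push Not at h1
    obtain ⟨Q, i1, i2, ⟨φ, hφ⟩, h3⟩ := h1
    refine ⟨Q, i1, i2, φ, hφ, ?_⟩
    rintro ⟨ψ, hψ⟩
    exact h3 ψ hψ
  choose Q i1 i2 φ hφ hbad using hcon'
  let Φ : F →* (∀ H, Q H) := MonoidHom.pi φ
  obtain ⟨H, hH, ψ, hψ⟩ := exists_subgroup_quot h Δ τ hτ Φ.range Φ.rangeRestrict
    Φ.rangeRestrict_surjective
  refine hbad ⟨H, hH⟩ ⟨(Pi.evalMonoidHom Q ⟨H, hH⟩).comp (Φ.range.subtype.comp ψ), ?_⟩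
  intro z
  obtain ⟨w, rfl⟩ := hφ ⟨H, hH⟩ z
  obtain ⟨y, hy⟩ := hψ (Φ.rangeRestrict w)
  refine ⟨y, ?_⟩
  show ((ψ y : Φ.range) : ∀ H, Q H) ⟨H, hH⟩ = _
  rw [hy]
  rfl

theorem large_free {Γ : Type} [Group Γ] (hfg : Group.FG Λ) (h : HasQuotientsOf Λ Γ)
    (Δ : Subgroup Γ) [hΔ : Δ.FiniteIndex] (τ : Δ →* FreeGroup (Fin n)) (hτ : Surjective τ) :
    ∃ a : Fin n → Λ, Injective (FreeGroup.lift a) := by
  obtain ⟨H, hH, hHQ⟩ := exists_subgroup_quotients hfg h Δ τ hτ
  have hHf : H.FiniteIndex := ⟨by rw [hH]; exact hΔ.index_ne_zero⟩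
  have hHfg : Group.FG H := inferInstance
  have : Fact (Nat.Prime 2) := ⟨Nat.prime_two⟩
  obtain ⟨a, ha⟩ := exists_free (p := 2) hHfg (hHQ.p 2)
  refine ⟨fun i => (a i : Λ), ?_⟩
  have h1 : FreeGroup.lift (fun i => (a i : Λ)) = H.subtype.comp (FreeGroup.lift a) := by
    ext i
    simp
  rw [h1]
  exact (Subtype.val_injective).comp ha

end Pool.Agent.X277.PF
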