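import Pool.Agent.Helper642.FreeResP

/-!
# Free groups are residually finite `p`-groups

Adapted from `Pool.Agent.Helper642.FreeResP` (unitriangular matrices over a commutative ring in which
`p` is nilpotent instead of `ZMod p`).
-/

set_option autoImplicit false

noncomputable section

namespace Pool.Agent.X277.PF.ResP

open Pool.Agent.Helper642.FreeResP (Valid ev exists_syl)

section Mat

variable {R : Type} [CommRing R] {n : ℕ}

/-- Unitriangular matrices. -/
def UT (M : Matrix (Fin n) (Fin n) R) : Prop :=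
  (∀ a, M a a = 1) ∧ ∀ a b, b < a → M a b = 0


theorem UT_one : UT (1 : Matrix (Fin n) (Fin n) R) :=
  ⟨fun a => by simp, fun a b h => by rw [Matrix.one_apply_ne (ne_of_gt h)]⟩


theorem UT_mul {M N : Matrix (Fin n) (Fin n) R} (hM : UT M) (hN : UT N) : UT (M * N) := by
  constructor
  · intro a
    rw [Matrix.mul_apply, Finset.sum_eq_single a]
    · rw [hM.1, hN.1, one_mul]
    · intro b _ hb
      rcases lt_or_gt_of_ne hb with h | h
      · rw [hM.2 a b h, zero_mul]
      · rw [hN.2 b a h, mul_zero]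
    · intro h; exact absurd (Finset.mem_univ a) h
  · intro a b hab
    rw [Matrix.mul_apply]
    refine Finset.sum_eq_zero (fun c _ => ?_)
    rcases lt_or_ge c a with h | h
    · rw [hM.2 a c h, zero_mul]
    · rw [hN.2 c b (lt_of_lt_of_le hab h), mul_zero]


theorem UT_pow {M : Matrix (Fin n) (Fin n) R} (hM : UT M) (k : ℕ) : UT (M ^ k) := by
  induction k with
  | zero => rw [pow_zero]; exact UT_one
  | succ k ih => rw [pow_succ]; exact UT_mul ih hM


theorem strict_pow {X : Matrix (Fin n) (Fin n) R} (hX : ∀ a b, b ≤ a → X a b = 0)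
    (k : ℕ) : ∀ a b : Fin n, (b : ℕ) < a + k → (X ^ k) a b = 0 := by
  induction k with
  | zero =>
    intro a b h
    rw [pow_zero, Matrix.one_apply_ne]
    rintro rfl
    simp at h
  | succ k ih =>
    intro a b h
    rw [pow_succ, Matrix.mul_apply]
    refine Finset.sum_eq_zero (fun c _ => ?_)
    rcases lt_or_ge (c : ℕ) (a + k) with h1 | h1
    · rw [ih a c h1, zero_mul]
    · rw [hX c b, mul_zero]
      rw [Fin.le_def]; omega

/-- In a ring where the prime `p` is nilpotent, `1 + x` has order a power of `p` for `x` nilpotent. -/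
theorem pow_one_add {A : Type} [Ring A] {p : ℕ} (hp : p.Prime) {s : ℕ} (hs : ((p : A)) ^ s = 0) {x : A}
    {m : ℕ} (hx : x ^ m = 0) : (x + 1) ^ (p ^ (m + s)) = 1 := by
  have h1 : ((p : Polynomial ℤ)) ∣ (Polynomial.X + 1) ^ p ^ m - (Polynomial.X ^ p ^ m + 1) := by
    obtain ⟨r, hr⟩ := exists_add_pow_prime_pow_eq hp (Polynomial.X : Polynomial ℤ) 1 m
    exact ⟨Polynomial.X * r, by rw [hr, one_pow]; ring⟩
  have h2 := dvd_sub_pow_of_dvd_sub h1 s
  obtain ⟨q, hq⟩ := h2
  have h3 := congrArg (Polynomial.aeval x) hq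
  simp only [map_sub, map_pow, map_add, Polynomial.aeval_X, map_one, map_mul, map_natCast] at h3
  have h4 : x ^ p ^ m = 0 := by
    have : m ≤ p ^ m := (Nat.lt_pow_self hp.one_lt).le
    rw [← Nat.add_sub_cancel' this, pow_add, hx, zero_mul]
  rw [h4, zero_add, one_pow, pow_succ, hs, zero_mul, zero_mul, sub_eq_zero, ← pow_mul,
    ← pow_add] at h3
  exact h3

theorem UT_pow_eq_one {p : ℕ} (hp : p.Prime) {s : ℕ} (hs : ((p : R)) ^ s = 0)
    {M : Matrix (Fin n) (Fin n) R} (hM : UT M) : M ^ (p ^ (n + s)) = 1 := by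
  have hX : ∀ a b, b ≤ a → (M - 1) a b = 0 := by
    intro a b h
    rcases eq_or_lt_of_le h with rfl | h
    · simp [hM.1]
    · rw [Matrix.sub_apply, hM.2 a b h, Matrix.one_apply_ne (ne_of_gt h), sub_zero]
  have hn : (M - 1) ^ n = 0 := by
    ext a b
    rw [strict_pow hX n a b]
    · rfl
    · have := b.2
      omega
  have hs' : ((p : Matrix (Fin n) (Fin n) R)) ^ s = 0 := by
    have : ((p : Matrix (Fin n) (Fin n) R)) ^ s = ((p ^ s : ℕ) : Matrix (Fin n) (Fin n) R) := by
      push_cast; rfl
    rw [this]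
    have h2 : ((p ^ s : ℕ) : R) = 0 := by push_cast; exact hs
    ext a b
    rw [← Matrix.diagonal_natCast, h2]
    simp [Matrix.diagonal]
  have h := pow_one_add hp hs' hn
  rwa [sub_add_cancel] at h

/-- The p-group of unitriangular matrices. -/
def PG (R : Type) [CommRing R] (n : ℕ) {p s : ℕ} (hp : p.Prime) (hs : ((p : R)) ^ s = 0) :
    Subgroup (Matrix (Fin n) (Fin n) R)ˣ where
  carrier := {u | UT (u : Matrix (Fin n) (Fin n) R)}
  mul_mem' := by
    intro a b ha hb
    exact UT_mul ha hb
  one_mem' := UT_one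
  inv_mem' := by
    intro u hu
    have h1 : u ^ (p ^ (n + s)) = 1 := by
      ext1
      rw [Units.val_pow_eq_pow_val, UT_pow_eq_one hp hs hu]; rfl
    have h2 : u⁻¹ = u ^ (p ^ (n + s) - 1) := by
      rw [inv_eq_iff_mul_eq_one, ← pow_succ', Nat.sub_add_cancel (Nat.one_le_pow _ _ hp.pos), h1]
    change UT (u⁻¹ : (Matrix (Fin n) (Fin n) R)ˣ).1
    rw [h2, Units.val_pow_eq_pow_val]
    exact UT_pow hu _

theorem PG_pow {p s : ℕ} (hp : p.Prime) (hs : ((p : R)) ^ s = 0) (y : PG R n hp hs) :
    y ^ (p ^ (n + s)) = 1 := by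
  ext1
  rw [Subgroup.coe_pow]
  ext1
  rw [Units.val_pow_eq_pow_val, UT_pow_eq_one hp hs y.2]; rfl

/-- The nilpotent matrix attached to a generator and a list of letters. -/
def NM (R : Type) [CommRing R] {α : Type} [DecidableEq α] (n : ℕ) (w : List α) (i : α) :
    Matrix (Fin n) (Fin n) R :=
  fun a b => if (a : ℕ) + 1 = b ∧ w[(a : ℕ)]? = some i then 1 else 0

theorem NM_sq {α : Type} [DecidableEq α] (w : List α) (hw : w.IsChain (· ≠ ·)) (i : α) :
    NM R n w i * NM R n w i = 0 := by
  ext a b
  rw [Matrix.mul_apply]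
  refine Finset.sum_eq_zero (fun c _ => ?_)
  unfold NM
  by_cases h1 : (a : ℕ) + 1 = c ∧ w[(a : ℕ)]? = some i
  · by_cases h2 : (c : ℕ) + 1 = b ∧ w[(c : ℕ)]? = some i
    · exfalso
      obtain ⟨h1a, h1b⟩ := h1
      obtain ⟨-, h2b⟩ := h2
      rw [← h1a] at h2b
      rw [List.getElem?_eq_some_iff] at h1b h2b
      obtain ⟨g1, g2⟩ := h1b
      obtain ⟨g3, g4⟩ := h2b
      have := List.isChain_iff_getElem.1 hw (a : ℕ) g3
      exact this (g2.trans g4.symm)
    · rw [if_neg h2, mul_zero]
  · rw [if_neg h1, zero_mul]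

/-- The unit `1 + e N`. -/
def UM (R : Type) [CommRing R] {α : Type} [DecidableEq α] (n : ℕ) (w : List α)
    (hw : w.IsChain (· ≠ ·)) (i : α) (e : ℤ) : (Matrix (Fin n) (Fin n) R)ˣ where
  val := 1 + e • NM R n w i
  inv := 1 - e • NM R n w i
  val_inv := by
    rw [add_mul, mul_sub, mul_sub, one_mul, one_mul, mul_one, smul_mul_smul_comm, NM_sq w hw i]
    simp
  inv_val := by
    rw [sub_mul, mul_add, mul_add, one_mul, one_mul, mul_one, smul_mul_smul_comm, NM_sq w hw i]
    simp

theorem UM_val {α : Type} [DecidableEq α] (w : List α) (hw : w.IsChain (· ≠ ·)) (i : α)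
    (e : ℤ) : (UM R n w hw i e : Matrix (Fin n) (Fin n) R) = 1 + e • NM R n w i := rfl

theorem UM_mul {α : Type} [DecidableEq α] (w : List α) (hw : w.IsChain (· ≠ ·)) (i : α)
    (e f : ℤ) : UM R n w hw i e * UM R n w hw i f = UM R n w hw i (e + f) := by
  ext1
  rw [Units.val_mul]
  change (1 + e • NM R n w i) * (1 + f • NM R n w i) = 1 + (e + f) • NM R n w i
  rw [add_mul, mul_add, mul_add, one_mul, one_mul, mul_one, smul_mul_smul_comm, NM_sq w hw i,
    add_smul]
  simp only [smul_zero, add_zero]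
  abel

theorem UM_zero {α : Type} [DecidableEq α] (w : List α) (hw : w.IsChain (· ≠ ·)) (i : α) :
    UM R n w hw i 0 = 1 := by
  ext1
  change (1 + (0:ℤ) • NM R n w i) = 1
  simp

theorem UM_zpow {α : Type} [DecidableEq α] (w : List α) (hw : w.IsChain (· ≠ ·)) (i : α)
    (e : ℤ) : (UM R n w hw i 1) ^ e = UM R n w hw i e := by
  let φ : Multiplicative ℤ →* (Matrix (Fin n) (Fin n) R)ˣ :=
    { toFun := fun e => UM R n w hw i e.toAdd
      map_one' := UM_zero w hw i
      map_mul' := fun a b => (UM_mul w hw i _ _).symm }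
  have h := map_zpow φ (Multiplicative.ofAdd 1) e
  rw [← ofAdd_zsmul] at h
  simpa [φ] using h.symm

theorem UT_UM {α : Type} [DecidableEq α] (w : List α) (hw : w.IsChain (· ≠ ·)) (i : α)
    (e : ℤ) : UT (UM R n w hw i e : Matrix (Fin n) (Fin n) R) := by
  change UT (1 + e • NM R n w i)
  constructor
  · intro a
    rw [Matrix.add_apply, Matrix.smul_apply]
    have : NM R n w i a a = 0 := by
      unfold NM; rw [if_neg]; rintro ⟨h, -⟩; omega
    rw [this]; simp
  · intro a b hab
    rw [Matrix.add_apply, Matrix.smul_apply, Matrix.one_apply_ne (ne_of_gt hab)]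
    have : NM R n w i a b = 0 := by
      unfold NM; rw [if_neg]; rintro ⟨h, -⟩; rw [Fin.lt_def] at hab; omega
    rw [this]; simp

theorem prod_entry {α : Type} [DecidableEq α] (L : List (α × ℤ))
    (hw : (L.map Prod.fst).IsChain (· ≠ ·)) (k : ℕ) (hk : k ≤ L.length) :
    (∀ b : Fin (L.length + 1), (b : ℕ) = k →
      (((L.take k).map (fun s => UM R (L.length + 1) (L.map Prod.fst) hw s.1 s.2)).prod :
        (Matrix (Fin (L.length + 1)) (Fin (L.length + 1)) R)ˣ).1 0 b =
        ((L.take k).map (fun s => (s.2 : R))).prod) ∧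
    (∀ b : Fin (L.length + 1), k < (b : ℕ) →
      (((L.take k).map (fun s => UM R (L.length + 1) (L.map Prod.fst) hw s.1 s.2)).prod :
        (Matrix (Fin (L.length + 1)) (Fin (L.length + 1)) R)ˣ).1 0 b = 0) := by
  induction k with
  | zero =>
    constructor
    · intro b hb
      have : b = 0 := Fin.ext hb
      subst this
      simp
    · intro b hb
      simp only [List.take_zero, List.map_nil, List.prod_nil, Units.val_one]
      rw [Matrix.one_apply_ne]
      rintro rfl
      simp at hb
  | succ k ih =>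
    obtain ⟨ih1, ih2⟩ := ih (by omega)
    have hk' : k < L.length := by omega
    have htake : L.take (k + 1) = L.take k ++ [L[k]] := by
      rw [List.take_succ_eq_append_getElem hk']
    have hlet : (L.map Prod.fst)[k]? = some (L[k]).1 := by
      rw [List.getElem?_map, List.getElem?_eq_getElem hk']; rfl
    have key : ∀ b : Fin (L.length + 1), 1 ≤ (b : ℕ) → k < (b : ℕ) →
        (((L.take (k+1)).map (fun s => UM R (L.length + 1) (L.map Prod.fst) hw s.1 s.2)).prod :
        (Matrix (Fin (L.length + 1)) (Fin (L.length + 1)) R)ˣ).1 0 b =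
        (((L.take k).map (fun s => UM R (L.length + 1) (L.map Prod.fst) hw s.1 s.2)).prod :
        (Matrix (Fin (L.length + 1)) (Fin (L.length + 1)) R)ˣ).1 0
          ⟨(b:ℕ) - 1, by omega⟩ * ((L[k]).2 * NM R (L.length + 1) (L.map Prod.fst) (L[k]).1
          ⟨(b:ℕ) - 1, by omega⟩ b) := by
      intro b hb1 hb2
      rw [htake, List.map_append, List.prod_append, List.map_cons, List.map_nil,
        List.prod_cons, List.prod_nil, mul_one, Units.val_mul]
      rw [UM_val, mul_add, mul_one, Matrix.add_apply, ih2 b hb2, zero_add, Matrix.mul_apply,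
        Finset.sum_eq_single ⟨(b:ℕ) - 1, by omega⟩]
      · rw [Matrix.smul_apply]
        simp
      · intro c _ hc
        rw [Matrix.smul_apply]
        have : NM R (L.length + 1) (L.map Prod.fst) (L[k]).1 c b = 0 := by
          unfold NM; rw [if_neg]; rintro ⟨h, -⟩
          apply hc
          apply Fin.ext
          simp only
          omega
        rw [this]; simp
      · intro h; exact absurd (Finset.mem_univ _) h
    constructor
    · intro b hb
      rw [key b (by omega) (by omega), ih1 ⟨(b:ℕ) - 1, by omega⟩ (by simp only; omega)]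
      have : NM R (L.length + 1) (L.map Prod.fst) (L[k]).1 ⟨(b:ℕ) - 1, by omega⟩ b = 1 := by
        unfold NM
        rw [if_pos]
        constructor
        · simp only; omega
        · have : (b : ℕ) - 1 = k := by omega
          simp only [this]
          exact hlet
      rw [this, mul_one, htake, List.map_append, List.prod_append]
      simp
    · intro b hb
      rw [key b (by omega) (by omega), ih2 ⟨(b:ℕ) - 1, by omega⟩ (by simp only; omega), zero_mul]

end Mat

/-- **Free groups are residually finite `p`-groups.** -/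
theorem detect {α : Type} [DecidableEq α] {p : ℕ} (hp : p.Prime) (x : FreeGroup α) (hx : x ≠ 1) :
    ∃ (P : Type) (_ : Group P) (_ : Finite P) (_ : IsPGroup p P) (a : α → P),
      FreeGroup.lift a x ≠ 1 := by
  obtain ⟨L, ⟨hL1, hL2⟩, rfl⟩ := exists_syl x
  let m : ℤ := (L.map Prod.snd).prod
  have hm : m ≠ 0 := by
    intro h
    rw [List.prod_eq_zero_iff] at h
    obtain ⟨s, hs, h0⟩ := List.mem_map.1 h
    exact hL1 s hs h0
  -- a power of `p` not dividing the product of the exponents
  let s : ℕ := m.natAbs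
  have hps : m.natAbs < p ^ s := Nat.lt_pow_self hp.one_lt
  have hne : NeZero (p ^ s) := ⟨(pow_pos hp.pos s).ne'⟩
  have hpm : (m : ZMod (p ^ s)) ≠ 0 := by
    rw [Ne, ZMod.intCast_zmod_eq_zero_iff_dvd]
    intro h
    have := Int.natAbs_dvd_natAbs.2 h
    rw [Int.natAbs_natCast] at this
    have := Nat.le_of_dvd (Int.natAbs_pos.2 hm) this
    omega
  have hs : ((p : ZMod (p ^ s))) ^ s = 0 := by
    rw [← Nat.cast_pow, ZMod.natCast_self]
  have hw : (L.map Prod.fst).IsChain (· ≠ ·) := by
    rw [List.isChain_map]; exact hL2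
  let G := PG (ZMod (p ^ s)) (L.length + 1) hp hs
  have hGf : Finite G := by
    have : Finite (Matrix (Fin (L.length + 1)) (Fin (L.length + 1)) (ZMod (p ^ s))) := by
      unfold Matrix
      infer_instance
    infer_instance
  let a : α → G := fun i => ⟨UM (ZMod (p ^ s)) (L.length + 1) (L.map Prod.fst) hw i 1, UT_UM _ hw i 1⟩
  refine ⟨G, inferInstance, hGf, fun y => ⟨_, PG_pow hp hs y⟩, a, ?_⟩
  intro h
  have h2 : ((FreeGroup.lift a (ev L) : G) :
      (Matrix (Fin (L.length + 1)) (Fin (L.length + 1)) (ZMod (p ^ s)))ˣ) =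
      (L.map (fun t => UM (ZMod (p ^ s)) (L.length + 1) (L.map Prod.fst) hw t.1 t.2)).prod := by
    unfold ev
    rw [map_list_prod, List.map_map]
    have : (Subgroup.subtype G)
        ((L.map (FreeGroup.lift a ∘ fun t => FreeGroup.of t.1 ^ t.2)).prod) =
        (L.map (fun t => UM (ZMod (p ^ s)) (L.length + 1) (L.map Prod.fst) hw t.1 t.2)).prod := by
      rw [map_list_prod, List.map_map]
      congr 1
      apply List.map_congr_left
      intro t _
      simp only [Function.comp, map_zpow, FreeGroup.lift_apply_of]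
      exact UM_zpow _ hw t.1 t.2
    exact this
  rw [h] at h2
  have h3 := (prod_entry (R := ZMod (p ^ s)) L hw L.length le_rfl).1 (Fin.last _) (by simp)
  rw [List.take_length, ← h2] at h3
  have h4 : L ≠ [] := by
    rintro rfl
    exact hx (by simp [ev])
  have h5 : (0 : Fin (L.length + 1)) ≠ Fin.last _ := by
    intro h
    have := congrArg Fin.val h
    simp at this
    exact h4 (List.length_eq_zero_iff.1 this.symm)
  have h6 : (1 : Matrix (Fin (L.length + 1)) (Fin (L.length + 1)) (ZMod (p ^ s))) 0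
      (Fin.last _) = 0 := Matrix.one_apply_ne h5
  have h7 : (m : ZMod (p ^ s)) = (L.map (fun t => (t.2 : ZMod (p ^ s)))).prod := by
    change (((L.map Prod.snd).prod : ℤ) : ZMod (p ^ s)) = _
    rw [Int.cast_list_prod, List.map_map]
    rfl
  rw [← h7] at h3
  apply hpm
  rw [← h3]
  exact h6

end Pool.Agent.X277.PF.ResP
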