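import Pool.Agent.X277.PF.Mag
import Pool.Agent.X277.PF.ResP

/-!
# Free subgroups of groups with the finite quotients of a free group
-/

set_option autoImplicit false

open Set Function

noncomputable section

namespace Pool.Agent.X277.PF

/-! ### Finite `p`-groups -/

theorem exists_hom_of_ne_top {p : ℕ} [Fact p.Prime] {G : Type} [Group G] [Finite G]
    (hG : IsPGroup p G) {H : Subgroup G} (hH : H ≠ ⊤) :
    ∃ χ : G →* Multiplicative (ZMod p), χ ≠ 1 ∧ ∀ g ∈ H, χ g = 1 := by
  obtain ⟨M, hM, hHM⟩ := (eq_top_or_exists_le_coatom H).resolve_left hH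
  have hnil : Group.IsNilpotent G := hG.isNilpotent
  have hnorm : M.Normal :=
    Subgroup.NormalizerCondition.normal_of_coatom M Group.normalizerCondition_of_isNilpotent hM
  obtain ⟨N, hN⟩ := IsPGroup.iff_card.1 hG
  obtain ⟨m, hm⟩ := IsPGroup.iff_card.1 (hG.to_subgroup M)
  have hmN : m < N := by
    by_contra hn
    have h1 : Nat.card M = Nat.card G := le_antisymm (Subgroup.card_le_card_group M) (by
      rw [hm, hN]
      exact Nat.pow_le_pow_right (Fact.out : p.Prime).pos (not_lt.1 hn))
    exact hM.1 (Subgroup.eq_top_of_card_eq M h1)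
  obtain ⟨K, hK, hMK⟩ := Sylow.exists_subgroup_card_pow_succ (p := p) (n := m) (by
    rw [hN]
    exact pow_dvd_pow p hmN) hm
  have hKt : K = ⊤ := by
    rcases hM.le_iff.1 hMK with h | h
    · exact h
    · exfalso
      rw [h, hm] at hK
      have := Nat.pow_right_injective (Fact.out : p.Prime).two_le hK
      omega
  rw [hKt, Subgroup.card_top, hN] at hK
  have hidx : Nat.card (G ⧸ M) = p := by
    have h1 := Subgroup.card_eq_card_quotient_mul_card_subgroup M
    rw [hN, hm, hK, pow_succ, mul_comm] at h1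
    exact (Nat.eq_of_mul_eq_mul_right (pow_pos (Fact.out : p.Prime).pos m) h1).symm
  have e : (G ⧸ M) ≃* Multiplicative (ZMod p) := mulEquivOfPrimeCardEq (p := p) hidx (by
    rw [Nat.card_congr Multiplicative.toAdd, Nat.card_zmod])
  refine ⟨e.toMonoidHom.comp (QuotientGroup.mk' M), fun h => ?_, fun g hg => ?_⟩
  · have h1 : ∀ g : G, g ∈ M := by
      intro g
      have h2 := DFunLike.congr_fun h g
      have h3 : e (QuotientGroup.mk' M g) = e 1 := by
        rw [map_one]
        exact h2
      exact (QuotientGroup.eq_one_iff g).1 (e.injective h3)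
    exact hM.1 (eq_top_iff.2 fun g _ => h1 g)
  · have h1 : QuotientGroup.mk' M g = 1 := (QuotientGroup.eq_one_iff g).2 (hHM hg)
    show e (QuotientGroup.mk' M g) = 1
    rw [h1, map_one]

theorem closure_eq_top_of_hom {p : ℕ} [Fact p.Prime] {G : Type} [Group G] [Finite G]
    (hG : IsPGroup p G) {S : Set G}
    (h : ∀ χ : G →* Multiplicative (ZMod p), (∀ g ∈ S, χ g = 1) → χ = 1) :
    Subgroup.closure S = ⊤ := by
  by_contra hn
  obtain ⟨χ, h1, h2⟩ := exists_hom_of_ne_top hG hn
  exact h1 (h χ fun g hg => h2 g (Subgroup.subset_closure hg))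

/-! ### The relatively free group -/

/-- evaluation at all tuples of `P` -/
def allEv (P : Type) [Group P] (n : ℕ) : FreeGroup (Fin n) →* ((Fin n → P) → P) :=
  MonoidHom.pi fun b => FreeGroup.lift b

theorem allEv_apply (P : Type) [Group P] (n : ℕ) (x : FreeGroup (Fin n)) (b : Fin n → P) :
    allEv P n x b = FreeGroup.lift b x := rfl

/-- the relatively free group of rank `n` in the variety of `P` -/
abbrev RF (P : Type) [Group P] (n : ℕ) : Type := (allEv P n).range

instance (P : Type) [Group P] [Finite P] (n : ℕ) : Finite (RF P n) := by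
  have : Finite ((Fin n → P) → P) := inferInstance
  infer_instance

theorem RF_pgroup {p : ℕ} [Fact p.Prime] (P : Type) [Group P] [Finite P] (hP : IsPGroup p P)
    (n : ℕ) : IsPGroup p (RF P n) := by
  obtain ⟨N, hN⟩ := IsPGroup.iff_card.1 hP
  rintro ⟨f, hf⟩
  refine ⟨N, ?_⟩
  apply Subtype.ext
  funext b
  show f b ^ p ^ N = 1
  rw [← hN]
  exact pow_card_eq_one'

/-- **Hopf argument.** -/
theorem hopf {n : ℕ} {P : Type} [Group P] [Finite P] {b : Fin n → P} {x : FreeGroup (Fin n)}
    (hx : FreeGroup.lift b x ≠ 1) {g : Fin n → RF P n} (hg : Subgroup.closure (range g) = ⊤) :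
    FreeGroup.lift g x ≠ 1 := by
  intro h
  have hsurj : Surjective (FreeGroup.lift g) := by
    intro y
    have h1 : y ∈ (FreeGroup.lift g).range := by
      rw [FreeGroup.range_lift_eq_closure, hg]
      exact Subgroup.mem_top y
    exact h1
  -- the kernel of `allEv` is in the kernel of `lift g`
  have hker : ∀ y, allEv P n y = 1 → FreeGroup.lift g y = 1 := by
    intro y hy
    apply Subtype.ext
    funext c
    have h1 : (Pi.evalMonoidHom (fun _ : Fin n → P => P) c).comp
        ((allEv P n).range.subtype.comp (FreeGroup.lift g)) =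
        FreeGroup.lift (fun i => (g i : (Fin n → P) → P) c) := by
      ext i
      simp
    have h2 := DFunLike.congr_fun h1 y
    have h3 : FreeGroup.lift (fun i => (g i : (Fin n → P) → P) c) y = 1 := by
      rw [← allEv_apply, hy]
      rfl
    rw [h3] at h2
    exact h2
  choose inv hinv using fun q : RF P n => (allEv P n).rangeRestrict_surjective q
  have h4 : ∀ y, FreeGroup.lift g (inv ((allEv P n).rangeRestrict y)) = FreeGroup.lift g y := by
    intro y
    rw [← inv_mul_eq_one, ← map_inv, ← map_mul]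
    apply hker
    rw [map_mul, map_inv, inv_mul_eq_one]
    exact congrArg Subtype.val (hinv ((allEv P n).rangeRestrict y))
  have hθ : Surjective (fun q : RF P n => FreeGroup.lift g (inv q)) := by
    intro y
    obtain ⟨z, rfl⟩ := hsurj y
    exact ⟨(allEv P n).rangeRestrict z, h4 z⟩
  have hinj := Finite.injective_iff_surjective.2 hθ
  have h5 : (allEv P n).rangeRestrict x = (allEv P n).rangeRestrict 1 := by
    apply hinj
    show FreeGroup.lift g (inv _) = FreeGroup.lift g (inv _)
    rw [h4, h4, h, map_one]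
  have h6 : allEv P n x = allEv P n 1 := congrArg Subtype.val h5
  apply hx
  rw [← allEv_apply, h6, map_one]
  rfl

/-- Every finite quotient of `Γ` which is a `p`-group is a quotient of `Λ`. -/
def HasPQuotientsOf (p : ℕ) (Λ Γ : Type) [Group Λ] [Group Γ] : Prop :=
  ∀ (Q : Type) [Group Q] [Finite Q], IsPGroup p Q → (∃ φ : Γ →* Q, Surjective φ) →
    ∃ φ : Λ →* Q, Surjective φ

theorem HasQuotientsOf.p {Λ Γ : Type} [Group Λ] [Group Γ] (h : HasQuotientsOf Λ Γ) (p : ℕ) :
    HasPQuotientsOf p Λ Γ := fun Q _ _ _ hφ => h Q hφ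

/-- **The criterion.** -/
theorem lift_injective {p : ℕ} [hp : Fact p.Prime] {n : ℕ} {Λ : Type} [Group Λ]
    (h : HasPQuotientsOf p Λ (FreeGroup (Fin n))) (a : Fin n → Λ)
    (ha : ∀ χ : Λ →* Multiplicative (ZMod p), (∀ i, χ (a i) = 1) → χ = 1) :
    Injective (FreeGroup.lift a) := by
  rw [injective_iff_map_eq_one]
  intro x hx
  by_contra hne
  obtain ⟨P, _, _, hP, b, hb⟩ := ResP.detect hp.out x hne
  obtain ⟨π, hπ⟩ := h (RF P n) (RF_pgroup P hP n)
    ⟨(allEv P n).rangeRestrict, (allEv P n).rangeRestrict_surjective⟩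
  have hgen : Subgroup.closure (range fun i => π (a i)) = ⊤ := by
    apply closure_eq_top_of_hom (RF_pgroup P hP n)
    intro χ hχ
    have h1 := ha (χ.comp π) fun i => hχ _ ⟨i, rfl⟩
    ext y
    obtain ⟨z, rfl⟩ := hπ y
    exact congrArg _ (DFunLike.congr_fun h1 z)
  apply hopf hb hgen
  have h1 : FreeGroup.lift (fun i => π (a i)) = π.comp (FreeGroup.lift a) := by
    ext i
    simp
  rw [h1, MonoidHom.comp_apply, hx, map_one]

end Pool.Agent.X277.PF
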