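import Pool.Agent.X277.PF.Words

/-!
# Generation and the growth of positive words
-/

set_option autoImplicit false

open Set Function

noncomputable section

namespace Pool.Agent.X277.PF

variable {p n k : ℕ}

/-- the units acting trivially on the graded pieces -/
def IsUni (u : Module.End (ZMod p) (V p n k)) : Prop := u - 1 ∈ Op p n k 1

theorem IsUni.mul {u v : Module.End (ZMod p) (V p n k)} (hu : IsUni u) (hv : IsUni v) :
    IsUni (u * v) := by
  have h1 : u * v - 1 = (u - 1) * (v - 1) + (u - 1) + (v - 1) := by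
    simp only [sub_mul, mul_sub, mul_one, one_mul]
    abel
  show u * v - 1 ∈ _
  rw [h1]
  exact Submodule.add_mem _ (Submodule.add_mem _ (Op_anti (by omega) (Op_mul hu hv)) hu) hv

theorem isUni_one : IsUni (1 : Module.End (ZMod p) (V p n k)) := by
  show (1 : Module.End (ZMod p) (V p n k)) - 1 ∈ _
  rw [sub_self]
  exact Submodule.zero_mem _

/-- a monoid homomorphism from a group is unitriangular on a subgroup if its range is finite -/
def uniSub {Λ : Type} [Group Λ] (ρ : Λ →* Module.End (ZMod p) (V p n k)) [NeZero p] :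
    Subgroup Λ where
  carrier := {g | IsUni (ρ g)}
  mul_mem' := by
    intro a b ha hb
    show IsUni (ρ (a * b))
    rw [map_mul]
    exact IsUni.mul ha hb
  one_mem' := by
    show IsUni (ρ 1)
    rw [map_one]
    exact isUni_one
  inv_mem' := by
    intro a ha
    show IsUni (ρ a⁻¹)
    have hfin : Finite (Module.End (ZMod p) (V p n k)) := DFunLike.finite _
    have hpow : ∀ m : ℕ, IsUni (ρ a ^ m) := by
      intro m
      induction m with
      | zero => rw [pow_zero]; exact isUni_one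
      | succ m ih => rw [pow_succ]; exact ih.mul ha
    -- the powers of `ρ a` repeat
    obtain ⟨i, j, hij, h⟩ := Finite.exists_ne_map_eq_of_infinite (fun m : ℕ => ρ a ^ m)
    have key : ∀ i j : ℕ, i < j → ρ a ^ i = ρ a ^ j → IsUni (ρ a⁻¹) := by
      intro i j hlt h
      obtain ⟨d, rfl⟩ : ∃ d, j = (i + 1) + d := ⟨j - (i + 1), by omega⟩
      have h1 : ρ (a⁻¹ ^ (i + 1)) * ρ a ^ i = ρ (a⁻¹ ^ (i + 1)) * ρ a ^ ((i + 1) + d) := by rw [h]
      have h2 : ρ (a⁻¹ ^ (i + 1)) * ρ a ^ i = ρ a⁻¹ := by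
        rw [← map_pow, ← map_mul, inv_pow, pow_succ, mul_inv_rev, mul_assoc, inv_mul_cancel, mul_one]
      have h3 : ρ (a⁻¹ ^ (i + 1)) * ρ a ^ ((i + 1) + d) = ρ a ^ d := by
        rw [← map_pow, ← map_mul, ← map_pow, pow_add a, ← mul_assoc, inv_pow, inv_mul_cancel,
          one_mul]
      rw [h2, h3] at h1
      rw [h1]
      exact hpow _
    rcases lt_or_gt_of_ne hij with hlt | hlt
    · exact key i j hlt h
    · exact key j i hlt h.symm

variable {Λ : Type} [Group Λ]

/-- the operators whose linear part is a combination of those of the elements of `S` -/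
def Lin (ρ : Λ →* Module.End (ZMod p) (V p n k)) (S : Set Λ) :
    Submodule (ZMod p) (Module.End (ZMod p) (V p n k)) :=
  Submodule.span (ZMod p) ((fun s => ρ s - 1) '' S) ⊔ Op p n k 2

/-- the elements whose linear part is a combination of those of the elements of `S` -/
def linSub (ρ : Λ →* Module.End (ZMod p) (V p n k)) (hρ : ∀ g, IsUni (ρ g)) (S : Set Λ) :
    Subgroup Λ where
  carrier := {g | ρ g - 1 ∈ Lin ρ S}
  mul_mem' := by
    intro a b ha hb
    show ρ (a * b) - 1 ∈ Lin ρ S
    have h1 : ρ (a * b) - 1 = (ρ a - 1) * (ρ b - 1) + (ρ a - 1) + (ρ b - 1) := by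
      rw [map_mul]
      simp only [sub_mul, mul_sub, mul_one, one_mul]
      abel
    rw [h1]
    exact Submodule.add_mem _ (Submodule.add_mem _
      (Submodule.mem_sup_right (Op_mul (hρ a) (hρ b))) ha) hb
  one_mem' := by
    show ρ 1 - 1 ∈ Lin ρ S
    rw [map_one, sub_self]
    exact Submodule.zero_mem _
  inv_mem' := by
    intro a ha
    show ρ a⁻¹ - 1 ∈ Lin ρ S
    have h2 : ρ a⁻¹ * ρ a = 1 := by rw [← map_mul, inv_mul_cancel, map_one]
    have h1 : ρ a⁻¹ - 1 = -(ρ a - 1) - (ρ a⁻¹ - 1) * (ρ a - 1) := by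
      simp only [sub_mul, mul_sub, mul_one, one_mul, h2]
      abel
    rw [h1]
    exact Submodule.sub_mem _ (Submodule.neg_mem _ ha)
      (Submodule.mem_sup_right (Op_mul (hρ a⁻¹) (hρ a)))

theorem subset_linSub (ρ : Λ →* Module.End (ZMod p) (V p n k)) (hρ : ∀ g, IsUni (ρ g)) (S : Set Λ) :
    S ⊆ linSub ρ hρ S := fun s hs =>
  Submodule.mem_sup_left (Submodule.subset_span ⟨s, hs, rfl⟩)

/-- the span of the orbit of the empty word under the products of at most `t` elements -/
def orb (ρ : Λ →* Module.End (ZMod p) (V p n k)) (S : Set Λ) (t : ℕ) :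
    Submodule (ZMod p) (V p n k) :=
  Submodule.span (ZMod p) {v | ∃ l : List Λ, l.length ≤ t ∧ (∀ x ∈ l, x ∈ S) ∧
    v = ρ l.prod (e p ⟨[], Nat.zero_le k⟩)}

theorem orb_mono (ρ : Λ →* Module.End (ZMod p) (V p n k)) (S : Set Λ) {t u : ℕ} (h : t ≤ u) :
    orb ρ S t ≤ orb ρ S u := by
  apply Submodule.span_mono
  rintro v ⟨l, h1, h2, h3⟩
  exact ⟨l, h1.trans h, h2, h3⟩

theorem orb_step (ρ : Λ →* Module.End (ZMod p) (V p n k)) (S : Set Λ) {s : Λ} (hs : s ∈ S) {t : ℕ}
    {v : V p n k} (hv : v ∈ orb ρ S t) : (ρ s - 1) v ∈ orb ρ S (t + 1) := by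
  rw [LinearMap.sub_apply, Module.End.one_apply]
  refine Submodule.sub_mem _ ?_ (orb_mono ρ S (Nat.le_succ t) hv)
  have h1 : orb ρ S t ≤ (orb ρ S (t + 1)).comap (ρ s) := by
    unfold orb
    rw [Submodule.span_le]
    rintro _ ⟨l, h1, h2, rfl⟩
    refine Submodule.subset_span ⟨s :: l, by simpa using h1, ?_, ?_⟩
    · intro x hx
      rcases List.mem_cons.1 hx with rfl | hx
      · exact hs
      · exact h2 x hx
    · rw [List.prod_cons, map_mul]
      rfl
  exact h1 hv

/-- the orbit spans modulo the filtration -/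
theorem orb_span (ρ : Λ →* Module.End (ZMod p) (V p n k)) (S : Set Λ)
    (hX : ∀ j, X p j ∈ Lin ρ S)
    (hS1 : ∀ s ∈ S, ρ s - 1 ∈ Op p n k 1) (t : ℕ) (ht : t ≤ k) :
    orb ρ S t ⊔ Fil p n k (t + 1) = ⊤ := by
  have hSe : ∀ D ∈ Submodule.span (ZMod p) ((fun s => ρ s - 1) '' S), ∀ t, ∀ v ∈ orb ρ S t,
      D v ∈ orb ρ S (t + 1) := by
    intro D hD t v hv
    have h1 : Submodule.span (ZMod p) ((fun s => ρ s - 1) '' S) ≤
        (orb ρ S (t + 1)).comap (LinearMap.applyₗ v) := by
      rw [Submodule.span_le]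
      rintro _ ⟨s, hs, rfl⟩
      exact orb_step ρ S hs hv
    exact h1 hD
  have hSO : ∀ D ∈ Submodule.span (ZMod p) ((fun s => ρ s - 1) '' S), D ∈ Op p n k 1 := by
    intro D hD
    have h1 : Submodule.span (ZMod p) ((fun s => ρ s - 1) '' S) ≤ Op p n k 1 := by
      rw [Submodule.span_le]
      rintro _ ⟨s, hs, rfl⟩
      exact hS1 s hs
    exact h1 hD
  induction t with
  | zero =>
    rw [eq_top_iff]
    intro f _
    obtain ⟨g, hg, hfg⟩ := Fil_decomp 0 (Fil_zero f)
    rw [← sub_add_cancel f g]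
    refine Submodule.add_mem _ (Submodule.mem_sup_right hfg) (Submodule.mem_sup_left ?_)
    have h1 : Submodule.span (ZMod p) {v | ∃ w : Wd n k, w.1.length = 0 ∧ v = e p w} ≤
        orb ρ S 0 := by
      rw [Submodule.span_le]
      rintro _ ⟨⟨w, hw⟩, hw0, rfl⟩
      have : w = [] := List.length_eq_zero_iff.1 hw0
      subst this
      refine Submodule.subset_span ⟨[], le_rfl, by simp, ?_⟩
      rw [List.prod_nil, map_one]
      rfl
    exact h1 hg
  | succ t ih =>
    have ih := ih (by omega)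
    rw [eq_top_iff, ← ih, sup_le_iff]
    refine ⟨(orb_mono ρ S (Nat.le_succ t)).trans le_sup_left, ?_⟩
    intro f hf
    obtain ⟨g, hg, hfg⟩ := Fil_decomp (t + 1) hf
    rw [← sub_add_cancel f g]
    refine Submodule.add_mem _ (Submodule.mem_sup_right hfg) ?_
    have h1 : Submodule.span (ZMod p) {v | ∃ w : Wd n k, w.1.length = t + 1 ∧ v = e p w} ≤
        orb ρ S (t + 1) ⊔ Fil p n k (t + 1 + 1) := by
      rw [Submodule.span_le]
      rintro _ ⟨⟨w, hw⟩, hw0, rfl⟩
      cases w with
      | nil => simp at hw0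
      | cons j w =>
        simp only [List.length_cons] at hw0
        have hwl : w.length = t := by omega
        rw [← X_e j w hw]
        obtain ⟨D, hD, D', hD', hDX⟩ := Submodule.mem_sup.1 (hX j)
        have hmem : e p (k := k) ⟨w, by simp at hw; omega⟩ ∈ orb ρ S t ⊔ Fil p n k (t + 1) := by
          rw [ih]; trivial
        obtain ⟨y, hy, z, hz, hyz⟩ := Submodule.mem_sup.1 hmem
        rw [← hDX, LinearMap.add_apply]
        refine Submodule.add_mem _ ?_ (Submodule.mem_sup_right ?_)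
        · rw [← hyz, map_add]
          refine Submodule.add_mem _ (Submodule.mem_sup_left (hSe D hD t y hy))
            (Submodule.mem_sup_right (hSO D hD _ z hz))
        · have : e p (k := k) ⟨w, by simp at hw; omega⟩ ∈ Fil p n k t := by
            intro v hv
            have : v.1 ≠ w := by
              intro hvw
              rw [hvw, hwl] at hv
              exact lt_irrefl _ hv
            simp [e, this]
          exact hD' t _ this
    exact h1 hg

/-- **Growth of the positive words.** -/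
theorem growth [Fact p.Prime] (ρ : Λ →* Module.End (ZMod p) (V p n k)) (hρ : ∀ g, IsUni (ρ g))
    (hX : ∀ j : Fin n, ∃ g, ρ g = 1 + X p j) (S : Set Λ) (hS : Subgroup.closure S = ⊤) (B : Set Λ)
    (hB : ∀ l : List Λ, l.length ≤ k → (∀ x ∈ l, x ∈ S) → l.prod ∈ B) (hBf : B.Finite) :
    ∑ i ∈ Finset.range (k + 1), n ^ i ≤ B.ncard := by
  have hlin : ∀ g, g ∈ linSub ρ hρ S := by
    intro g
    have : Subgroup.closure S ≤ linSub ρ hρ S := (Subgroup.closure_le _).2 (subset_linSub ρ hρ S)
    exact this (hS ▸ Subgroup.mem_top g)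
  have hX' : ∀ j, X p j ∈ Lin ρ S := by
    intro j
    obtain ⟨g, hg⟩ := hX j
    have h1 : ρ g - 1 ∈ Lin ρ S := hlin g
    rwa [hg, add_sub_cancel_left] at h1
  have htop := orb_span ρ S hX' (fun s _ => hρ s) k le_rfl
  have hF : Fil p n k (k + 1) = ⊥ := by
    rw [eq_bot_iff]
    intro f hf
    rw [Fil_top (Nat.lt_succ_self k) hf]
    exact Submodule.zero_mem _
  rw [hF, sup_bot_eq] at htop
  have hle : orb ρ S k ≤ Submodule.span (ZMod p)
      ((fun g => ρ g (e p ⟨[], Nat.zero_le k⟩)) '' B) := by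
    apply Submodule.span_mono
    rintro v ⟨l, h1, h2, rfl⟩
    exact ⟨_, hB l h1 h2, rfl⟩
  rw [htop, top_le_iff] at hle
  have hfin : ((fun g => ρ g (e p ⟨[], Nat.zero_le k⟩)) '' B).Finite := hBf.image _
  have hrank : Module.finrank (ZMod p) (V p n k) ≤
      ((fun g => ρ g (e p (n := n) (k := k) ⟨[], Nat.zero_le k⟩)) '' B).ncard := by
    have := Fintype.ofFinite ((fun g => ρ g (e p (n := n) (k := k) ⟨[], Nat.zero_le k⟩)) '' B)
    rw [← finrank_top, ← hle]
    refine (finrank_span_le_card _).trans ?_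
    rw [Set.ncard_eq_toFinset_card']
  have := Fintype.ofFinite (Wd n k)
  rw [Module.finrank_fintype_fun_eq_card, ← Nat.card_eq_fintype_card, card_Wd] at hrank
  exact hrank.trans (Set.ncard_image_le hBf)

end Pool.Agent.X277.PF
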