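import Pool.Agent.X277.PF.Gen

/-!
# Groups with the finite quotients of a free group
-/

set_option autoImplicit false

open Set Function

noncomputable section

namespace Pool.Agent.X277.PF

/-- Every finite quotient of `Γ` is a quotient of `Λ`. -/
def HasQuotientsOf (Λ Γ : Type) [Group Λ] [Group Γ] : Prop :=
  ∀ (Q : Type) [Group Q] [Finite Q], (∃ φ : Γ →* Q, Surjective φ) → ∃ φ : Λ →* Q, Surjective φ

/-- The products of at most `k` elements of `S`. -/
def posBall {Λ : Type} [Group Λ] (S : Set Λ) (k : ℕ) : Set Λ :=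
  {g | ∃ l : List Λ, l.length ≤ k ∧ (∀ x ∈ l, x ∈ S) ∧ l.prod = g}

theorem posBall_finite {Λ : Type} [Group Λ] {S : Set Λ} (hS : S.Finite) (k : ℕ) :
    (posBall S k).Finite := by
  have : Finite S := hS
  have h1 : {l : List S | l.length ≤ k}.Finite := List.finite_length_le S k
  refine (h1.image fun l => (l.map (Subtype.val)).prod).subset ?_
  rintro g ⟨l, h2, h3, rfl⟩
  refine ⟨l.attach.map fun x => ⟨x.1, h3 x.1 x.2⟩, by simpa using h2, ?_⟩
  simp

variable {p n k : ℕ}

theorem X_pow_Op (j : Fin n) (m : ℕ) : X p j ^ m ∈ Op p n k m := by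
  induction m with
  | zero =>
    intro i f hf
    rw [pow_zero, Module.End.one_apply]
    exact hf
  | succ m ih =>
    rw [pow_succ]
    exact Op_mul ih (X_Op j)

theorem X_pow_zero (j : Fin n) : (X p j : Module.End (ZMod p) (V p n k)) ^ (k + 1) = 0 := by
  apply LinearMap.ext
  intro f
  exact Fil_top (by omega) (X_pow_Op j (k + 1) 0 f (Fil_zero f))

/-- the unit `1 + X j` -/
def U (p : ℕ) {n k : ℕ} (j : Fin n) : (Module.End (ZMod p) (V p n k))ˣ :=
  (IsNilpotent.isUnit_one_add ⟨k + 1, X_pow_zero (p := p) (k := k) j⟩).unit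

theorem U_val (j : Fin n) : ((U p j : (Module.End (ZMod p) (V p n k))ˣ) :
    Module.End (ZMod p) (V p n k)) = 1 + X p j := rfl

/-- the truncated Magnus representation -/
def mag (p n k : ℕ) : FreeGroup (Fin n) →* (Module.End (ZMod p) (V p n k))ˣ :=
  FreeGroup.lift (U p)

theorem mag_uni [NeZero p] (x : FreeGroup (Fin n)) :
    IsUni ((mag p n k x : (Module.End (ZMod p) (V p n k))ˣ) : Module.End (ZMod p) (V p n k)) := by
  let ρ : FreeGroup (Fin n) →* Module.End (ZMod p) (V p n k) := (Units.coeHom _).comp (mag p n k)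
  have h1 : ∀ j, FreeGroup.of j ∈ uniSub ρ := by
    intro j
    show IsUni (ρ (FreeGroup.of j))
    have : ρ (FreeGroup.of j) = 1 + X p j := by
      show ((mag p n k (FreeGroup.of j) : (Module.End (ZMod p) (V p n k))ˣ) :
        Module.End (ZMod p) (V p n k)) = 1 + X p j
      rw [mag, FreeGroup.lift_apply_of]
      rfl
    rw [this]
    show 1 + X p j - 1 ∈ _
    rw [add_sub_cancel_left]
    exact X_Op j
  have h2 : uniSub ρ = ⊤ := by
    rw [eq_top_iff, ← FreeGroup.closure_range_of]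
    rw [Subgroup.closure_le]
    rintro _ ⟨j, rfl⟩
    exact h1 j
  have h3 : x ∈ uniSub ρ := h2 ▸ Subgroup.mem_top x
  exact h3

/-- **Growth.** -/
theorem growth_quot {Λ : Type} [Group Λ] {n : ℕ} (h : HasQuotientsOf Λ (FreeGroup (Fin n)))
    {S : Set Λ} (hSf : S.Finite) (hS : Subgroup.closure S = ⊤) (k : ℕ) :
    ∑ i ∈ Finset.range (k + 1), n ^ i ≤ (posBall S k).ncard := by
  have : Fact (Nat.Prime 2) := ⟨Nat.prime_two⟩
  have hfin : Finite (Module.End (ZMod 2) (V 2 n k)) := DFunLike.finite _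
  obtain ⟨π, hπ⟩ := h (mag 2 n k).range ⟨(mag 2 n k).rangeRestrict, (mag 2 n k).rangeRestrict_surjective⟩
  let ρ : Λ →* Module.End (ZMod 2) (V 2 n k) :=
    (Units.coeHom _).comp ((mag 2 n k).range.subtype.comp π)
  refine growth ρ ?_ ?_ S hS _ (fun l h1 h2 => ⟨l, h1, h2, rfl⟩) (posBall_finite hSf k)
  · intro g
    obtain ⟨x, hx⟩ := (π g).2
    have h1 : ρ g = ((mag 2 n k x : (Module.End (ZMod 2) (V 2 n k))ˣ) :
        Module.End (ZMod 2) (V 2 n k)) := by
      rw [hx]
      rfl
    rw [h1]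
    exact mag_uni x
  · intro j
    obtain ⟨g, hg⟩ := hπ ⟨mag 2 n k (FreeGroup.of j), _, rfl⟩
    refine ⟨g, ?_⟩
    show (((π g : (mag 2 n k).range) : (Module.End (ZMod 2) (V 2 n k))ˣ) :
      Module.End (ZMod 2) (V 2 n k)) = 1 + X 2 j
    rw [hg]
    show ((mag 2 n k (FreeGroup.of j) : (Module.End (ZMod 2) (V 2 n k))ˣ) :
        Module.End (ZMod 2) (V 2 n k)) = 1 + X 2 j
    rw [mag, FreeGroup.lift_apply_of]
    rfl

/-- the bound is attained by the free group and its basis -/
theorem growth_free (n k : ℕ) :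
    (posBall (range (FreeGroup.of : Fin n → FreeGroup (Fin n))) k).ncard =
      ∑ i ∈ Finset.range (k + 1), n ^ i := by
  refine le_antisymm ?_ (growth_quot (fun Q _ _ h => h) (finite_range _)
    (FreeGroup.closure_range_of _) k)
  rw [← card_Wd]
  have h1 : posBall (range (FreeGroup.of : Fin n → FreeGroup (Fin n))) k ⊆
      (fun w : Wd n k => (w.1.map FreeGroup.of).prod) '' univ := by
    rintro g ⟨l, h2, h3, rfl⟩
    have : ∃ w : List (Fin n), w.map FreeGroup.of = l := by
      clear h2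
      induction l with
      | nil => exact ⟨[], rfl⟩
      | cons a l ih =>
        obtain ⟨j, hj⟩ := h3 a (by simp)
        obtain ⟨w, hw⟩ := ih fun x hx => h3 x (by simp [hx])
        exact ⟨j :: w, by rw [List.map_cons, hj, hw]⟩
    obtain ⟨w, rfl⟩ := this
    exact ⟨⟨w, by simpa using h2⟩, trivial, rfl⟩
  calc (posBall (range (FreeGroup.of : Fin n → FreeGroup (Fin n))) k).ncard
      ≤ ((fun w : Wd n k => (w.1.map FreeGroup.of).prod) '' univ).ncard :=
        ncard_le_ncard h1 (finite_univ.image _)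
    _ ≤ (univ : Set (Wd n k)).ncard := ncard_image_le finite_univ
    _ = Nat.card (Wd n k) := ncard_univ _

end Pool.Agent.X277.PF
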