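import Mathlib

/-!
# The truncated Magnus representation
-/

set_option autoImplicit false

open Set Function

noncomputable section

namespace Pool.Agent.X277.PF

/-- words of length at most `k` in `n` letters -/
abbrev Wd (n k : ℕ) : Type := {l : List (Fin n) // l.length ≤ k}

instance (n k : ℕ) : Finite (Wd n k) := List.finite_length_le (Fin n) k

/-- the space of functions on the words -/
abbrev V (p n k : ℕ) : Type := Wd n k → ZMod p

variable {p n k : ℕ}

/-- appending a letter -/
def X (p : ℕ) {n k : ℕ} (j : Fin n) : Module.End (ZMod p) (V p n k) where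
  toFun f w := match w with
    | ⟨[], _⟩ => 0
    | ⟨a :: l, h⟩ => if a = j then f ⟨l, by simp at h; omega⟩ else 0
  map_add' f g := by
    funext ⟨w, h⟩
    cases w with
    | nil => simp
    | cons a l =>
      by_cases haj : a = j <;> simp [haj]
  map_smul' c f := by
    funext ⟨w, h⟩
    cases w with
    | nil => simp
    | cons a l =>
      by_cases haj : a = j <;> simp [haj]

theorem X_nil (j : Fin n) (f : V p n k) (h : ([] : List (Fin n)).length ≤ k) :
    X p j f ⟨[], h⟩ = 0 := rfl

theorem X_cons (j : Fin n) (f : V p n k) (a : Fin n) (l : List (Fin n))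
    (h : (a :: l).length ≤ k) : X p j f ⟨a :: l, h⟩ =
      if a = j then f ⟨l, by simp at h; omega⟩ else 0 := rfl

/-- the filtration by the length -/
def Fil (p n k i : ℕ) : Submodule (ZMod p) (V p n k) where
  carrier := {f | ∀ w : Wd n k, w.1.length < i → f w = 0}
  zero_mem' := fun _ _ => rfl
  add_mem' := by
    intro f g hf hg w hw
    rw [Pi.add_apply, hf w hw, hg w hw, add_zero]
  smul_mem' := by
    intro c f hf w hw
    rw [Pi.smul_apply, hf w hw, smul_zero]

theorem mem_Fil {i : ℕ} {f : V p n k} : f ∈ Fil p n k i ↔ ∀ w : Wd n k, w.1.length < i → f w = 0 :=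
  Iff.rfl

theorem Fil_zero (f : V p n k) : f ∈ Fil p n k 0 := fun _ hw => absurd hw (Nat.not_lt_zero _)

theorem Fil_top {i : ℕ} (hi : k < i) {f : V p n k} (hf : f ∈ Fil p n k i) : f = 0 := by
  funext w
  exact hf w (w.2.trans_lt hi)

theorem Fil_anti {i j : ℕ} (h : i ≤ j) : Fil p n k j ≤ Fil p n k i :=
  fun _ hf w hw => hf w (hw.trans_le h)

theorem X_Fil (j : Fin n) {i : ℕ} {f : V p n k} (hf : f ∈ Fil p n k i) :
    X p j f ∈ Fil p n k (i + 1) := by
  rintro ⟨w, h⟩ hw
  cases w with
  | nil => rfl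
  | cons a l =>
    rw [X_cons]
    split_ifs
    · apply hf
      simp at hw
      exact hw
    · rfl

/-- the operators raising the filtration by `d` -/
def Op (p n k d : ℕ) : Submodule (ZMod p) (Module.End (ZMod p) (V p n k)) where
  carrier := {D | ∀ i, ∀ f ∈ Fil p n k i, D f ∈ Fil p n k (i + d)}
  zero_mem' := fun _ _ _ => Submodule.zero_mem _
  add_mem' := by
    intro D D' hD hD' i f hf
    exact Submodule.add_mem _ (hD i f hf) (hD' i f hf)
  smul_mem' := by
    intro c D hD i f hf
    exact Submodule.smul_mem _ c (hD i f hf)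

theorem Op_mul {d e : ℕ} {D D' : Module.End (ZMod p) (V p n k)} (hD : D ∈ Op p n k d)
    (hD' : D' ∈ Op p n k e) : D * D' ∈ Op p n k (d + e) := by
  intro i f hf
  have h1 := hD (i + e) _ (hD' i f hf)
  rw [Module.End.mul_apply]
  convert h1 using 2
  ring

theorem Op_anti {d e : ℕ} (h : d ≤ e) : Op p n k e ≤ Op p n k d :=
  fun _ hD i f hf => Fil_anti (by omega) (hD i f hf)

theorem X_Op (j : Fin n) : X p j ∈ Op p n k 1 := fun _ _ hf => X_Fil j hf

/-- the basis vector -/
def e (p : ℕ) {n k : ℕ} (w : Wd n k) : V p n k := fun v => if v.1 = w.1 then 1 else 0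

theorem X_e (j : Fin n) (w : List (Fin n)) (h : (j :: w).length ≤ k) :
    X p j (e p ⟨w, by simp at h; omega⟩) = e p (k := k) ⟨j :: w, h⟩ := by
  funext ⟨v, hv⟩
  cases v with
  | nil => simp [X_nil, e]
  | cons a l =>
    rw [X_cons]
    by_cases haj : a = j
    · subst haj
      simp [e]
    · simp [e, haj]

theorem X_e_top (j : Fin n) (w : Wd n k) (h : w.1.length = k) : X p j (e p w) = 0 := by
  apply Fil_top (i := k + 1) (Nat.lt_succ_self k)
  apply X_Fil
  intro v hv
  have : v.1 ≠ w.1 := by
    intro hvw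
    rw [hvw, h] at hv
    exact lt_irrefl _ hv
  simp [e, this]

/-- decomposition in a level -/
theorem Fil_decomp (i : ℕ) {f : V p n k} (hf : f ∈ Fil p n k i) :
    ∃ g ∈ Submodule.span (ZMod p) {v | ∃ w : Wd n k, w.1.length = i ∧ v = e p w},
      f - g ∈ Fil p n k (i + 1) := by
  classical
  have := Fintype.ofFinite (Wd n k)
  refine ⟨∑ w ∈ Finset.univ.filter (fun w : Wd n k => w.1.length = i), f w • e p w, ?_, ?_⟩
  · refine Submodule.sum_mem _ fun w hw => Submodule.smul_mem _ _ (Submodule.subset_span ⟨w, ?_, rfl⟩)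
    exact (Finset.mem_filter.1 hw).2
  · intro v hv
    rw [Pi.sub_apply, Finset.sum_apply]
    rcases Nat.lt_succ_iff_lt_or_eq.1 hv with h | h
    · rw [hf v h, Finset.sum_eq_zero, sub_zero]
      intro w hw
      have h1 : v.1 ≠ w.1 := by
        intro hvw
        rw [hvw, (Finset.mem_filter.1 hw).2] at h
        exact lt_irrefl _ h
      simp [e, h1]
    · rw [Finset.sum_eq_single v]
      · simp [e]
      · intro w _ hwv
        have h1 : v.1 ≠ w.1 := fun h => hwv (Subtype.ext h.symm)
        simp [e, h1]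
      · intro h1
        rw [Finset.mem_filter] at h1
        exact absurd ⟨Finset.mem_univ _, h⟩ h1

theorem card_Wd (n k : ℕ) : Nat.card (Wd n k) = ∑ i ∈ Finset.range (k + 1), n ^ i := by
  let φ : Wd n k ≃ (Σ i : Fin (k + 1), List.Vector (Fin n) i) :=
    { toFun := fun w => ⟨⟨w.1.length, Nat.lt_succ_of_le w.2⟩, ⟨w.1, rfl⟩⟩
      invFun := fun s => ⟨s.2.1, by rw [s.2.2]; exact Nat.le_of_lt_succ s.1.2⟩
      left_inv := fun w => rfl
      right_inv := by
        rintro ⟨⟨i, hi⟩, ⟨l, hl⟩⟩
        simp only at hl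
        subst hl
        rfl }
  rw [Nat.card_congr φ, Nat.card_eq_fintype_card, Fintype.card_sigma]
  simp only [card_vector, Fintype.card_fin]
  exact Fin.sum_univ_eq_sum_range (fun i => n ^ i) (k + 1)

end Pool.Agent.X277.PF
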